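import Mathlib

set_option autoImplicit false

namespace Pool.Agent.J4.H53.Cde

open Finset

open scoped Classical

variable {m : ℕ}

/-- strictly decreasing until it is zero -/
def St (μ : Fin m → ℕ) : Prop := ∀ i j : Fin m, i < j → μ j = 0 ∨ μ j < μ i

def inc (μ : Fin m → ℕ) (i : Fin m) : Fin m → ℕ := Function.update μ i (μ i + 1)

def dec (μ : Fin m → ℕ) (i : Fin m) : Fin m → ℕ := Function.update μ i (μ i - 1)

def Rem (μ : Fin m → ℕ) (i : Fin m) : Prop := 0 < μ i ∧ St (dec μ i)

lemma inc_dec {μ : Fin m → ℕ} {i : Fin m} (h : 0 < μ i) : inc (dec μ i) i = μ := by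
  funext j
  unfold inc dec
  by_cases hj : j = i
  · subst hj; simp; omega
  · simp [Function.update_of_ne hj]

lemma dec_inc (μ : Fin m → ℕ) (i : Fin m) : dec (inc μ i) i = μ := by
  funext j
  unfold inc dec
  by_cases hj : j = i
  · subst hj; simp
  · simp [Function.update_of_ne hj]

lemma inc_self (μ : Fin m → ℕ) (i : Fin m) : inc μ i i = μ i + 1 := by simp [inc]

lemma dec_self (μ : Fin m → ℕ) (i : Fin m) : dec μ i i = μ i - 1 := by simp [dec]

lemma inc_ne (μ : Fin m → ℕ) {i j : Fin m} (h : j ≠ i) : inc μ i j = μ j := by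
  simp [inc, Function.update_of_ne h]

lemma dec_ne (μ : Fin m → ℕ) {i j : Fin m} (h : j ≠ i) : dec μ i j = μ j := by
  simp [dec, Function.update_of_ne h]

lemma dec_inc_comm (μ : Fin m → ℕ) {i j : Fin m} (h : i ≠ j) :
    dec (inc μ j) i = inc (dec μ i) j := by
  funext l
  by_cases h1 : l = i
  · subst h1
    rw [dec_self, inc_ne _ h, inc_ne _ h, dec_self]
  · rw [dec_ne _ h1]
    by_cases h2 : l = j
    · subst h2
      rw [inc_self, inc_self, dec_ne _ h1]
    · rw [inc_ne _ h2, inc_ne _ h2, dec_ne _ h1]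

lemma St.sup {α β : Fin m → ℕ} (hα : St α) (hβ : St β) : St (fun i => max (α i) (β i)) := by
  intro i j hij
  have h1 := hα i j hij
  have h2 := hβ i j hij
  simp only
  omega

lemma St.inf {α β : Fin m → ℕ} (hα : St α) (hβ : St β) : St (fun i => min (α i) (β i)) := by
  intro i j hij
  have h1 := hα i j hij
  have h2 := hβ i j hij
  simp only
  omega

lemma swap_iff {ν : Fin m → ℕ} (hν : St ν) {i j : Fin m} (hij : i ≠ j) :
    (Rem ν i ∧ St (inc (dec ν i) j)) ↔ (St (inc ν j) ∧ Rem (inc ν j) i) := by
  unfold Rem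
  rw [dec_inc_comm ν hij, inc_ne ν hij]
  constructor
  · rintro ⟨⟨h1, h2⟩, h3⟩
    refine ⟨?_, h1, h3⟩
    have := hν.sup h3
    convert this using 1
    funext l
    by_cases h4 : l = i
    · subst h4
      rw [inc_ne _ hij, inc_ne _ hij, dec_self]; omega
    · by_cases h5 : l = j
      · subst h5
        rw [inc_self, inc_self, dec_ne _ h4]; omega
      · rw [inc_ne _ h5, inc_ne _ h5, dec_ne _ h4]; omega
  · rintro ⟨h1, h2, h3⟩
    refine ⟨⟨h2, ?_⟩, h3⟩
    have := hν.inf h3
    convert this using 1
    funext l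
    by_cases h4 : l = i
    · subst h4
      rw [dec_self, inc_ne _ hij, dec_self]; omega
    · by_cases h5 : l = j
      · subst h5
        rw [inc_self, dec_ne _ h4]; omega
      · rw [inc_ne _ h5, dec_ne _ h4]; omega

/-- number of saturated chains from `0` to `μ` with `s` steps -/
noncomputable def e : ℕ → (Fin m → ℕ) → ℚ
  | 0, μ => if μ = 0 then 1 else 0
  | s + 1, μ => ∑ i, if Rem μ i then e s (dec μ i) else 0

/-- sum of `F` over the elements of all saturated chains from `0` to `μ` with `s` steps -/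
noncomputable def A (F : (Fin m → ℕ) → ℚ) : ℕ → (Fin m → ℕ) → ℚ
  | 0, μ => F μ * e 0 μ
  | s + 1, μ => F μ * e (s + 1) μ + ∑ i, if Rem μ i then A F s (dec μ i) else 0

lemma e_succ (s : ℕ) (μ : Fin m → ℕ) :
    e (s + 1) μ = ∑ i, if Rem μ i then e s (dec μ i) else 0 := rfl

lemma A_zero (F : (Fin m → ℕ) → ℚ) (μ : Fin m → ℕ) : A F 0 μ = F μ * e 0 μ := rfl

lemma A_succ (F : (Fin m → ℕ) → ℚ) (s : ℕ) (μ : Fin m → ℕ) :
    A F (s + 1) μ = F μ * e (s + 1) μ + ∑ i, if Rem μ i then A F s (dec μ i) else 0 := rfl

lemma A_add (F G : (Fin m → ℕ) → ℚ) (s : ℕ) : ∀ μ : Fin m → ℕ,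
    A (fun x => F x + G x) s μ = A F s μ + A G s μ := by
  induction s with
  | zero => intro μ; simp only [A_zero]; ring
  | succ s ih =>
    intro μ
    simp only [A_succ, ih]
    have : ∀ i, (if Rem μ i then A F s (dec μ i) + A G s (dec μ i) else 0) =
        (if Rem μ i then A F s (dec μ i) else 0) + (if Rem μ i then A G s (dec μ i) else 0) := by
      intro i; split_ifs <;> simp
    rw [sum_congr rfl (fun i _ => this i), sum_add_distrib]
    ring

lemma A_mul (a : ℚ) (F : (Fin m → ℕ) → ℚ) (s : ℕ) : ∀ μ : Fin m → ℕ,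
    A (fun x => a * F x) s μ = a * A F s μ := by
  induction s with
  | zero => intro μ; simp only [A_zero]; ring
  | succ s ih =>
    intro μ
    simp only [A_succ, ih]
    have : ∀ i, (if Rem μ i then a * A F s (dec μ i) else 0) =
        a * (if Rem μ i then A F s (dec μ i) else 0) := by
      intro i; split_ifs <;> simp
    rw [sum_congr rfl (fun i _ => this i), ← mul_sum]
    ring

lemma A_one (s : ℕ) : ∀ μ : Fin m → ℕ, A (fun _ => 1) s μ = (s + 1) * e s μ := by
  induction s with
  | zero => intro μ; simp [A_zero]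
  | succ s ih =>
    intro μ
    simp only [A_succ, ih]
    have : ∀ i, (if Rem μ i then ((s : ℚ) + 1) * e s (dec μ i) else 0) =
        ((s : ℚ) + 1) * (if Rem μ i then e s (dec μ i) else 0) := by
      intro i; split_ifs <;> simp
    rw [sum_congr rfl (fun i _ => this i), ← mul_sum, ← e_succ]
    push_cast
    ring

lemma A_congr {F G : (Fin m → ℕ) → ℚ} {s : ℕ} : ∀ {μ : Fin m → ℕ}, St μ →
    (∀ ν, St ν → (∀ i, ν i ≤ μ i) → F ν = G ν) → A F s μ = A G s μ := by
  induction s with
  | zero => intro μ hμ h; simp only [A_zero]; rw [h μ hμ (fun i => le_rfl)]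
  | succ s ih =>
    intro μ hμ h
    simp only [A_succ]
    rw [h μ hμ (fun i => le_rfl)]
    congr 1
    apply sum_congr rfl
    intro i _
    split_ifs with hi
    · apply ih hi.2
      intro ν hν hle
      apply h ν hν
      intro j
      refine (hle j).trans ?_
      by_cases hj : j = i
      · subst hj; rw [dec_self]; omega
      · rw [dec_ne _ hj]
    · rfl

/-- the weighted toggle operator -/
noncomputable def tog (c : Fin m → ℕ → ℚ) (μ : Fin m → ℕ) : ℚ :=
  (∑ i, if St (inc μ i) then c i (μ i + 1) else 0) - ∑ i, if Rem μ i then c i (μ i) else 0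

lemma rem_inc {ν : Fin m → ℕ} (hν : St ν) (i : Fin m) : Rem (inc ν i) i := by
  refine ⟨?_, ?_⟩
  · rw [inc_self]; omega
  · rw [dec_inc]; exact hν

lemma toggle (c : Fin m → ℕ → ℚ) (s : ℕ) : ∀ ν : Fin m → ℕ, St ν →
    A (tog c) s ν = ∑ i, if St (inc ν i) then c i (ν i + 1) * e (s + 1) (inc ν i) else 0 := by
  induction s with
  | zero =>
    intro ν hν
    have key : ∀ i, e 1 (inc ν i) = if ν = 0 then 1 else 0 := by
      intro i
      rw [e_succ]
      rw [sum_eq_single i]
      · rw [if_pos (rem_inc hν i), dec_inc]; rfl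
      · intro j _ hj
        split_ifs with h
        · show (if dec (inc ν i) j = 0 then (1 : ℚ) else 0) = 0
          rw [if_neg]
          intro h0
          have := congrFun h0 i
          rw [dec_ne _ (Ne.symm hj), inc_self] at this
          simp at this
        · rfl
      · intro h; exact absurd (mem_univ i) h
    rw [A_zero]
    simp only [zero_add]
    by_cases h0 : ν = 0
    · subst h0
      simp only [key, if_true]
      unfold tog
      have h1 : ∀ i : Fin m, ¬ Rem (0 : Fin m → ℕ) i := fun i h => by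
        have := h.1
        simp at this
      simp only [h1, if_false]
      simp [e]
    · simp only [key, if_neg h0, mul_zero, ite_self, sum_const_zero]
      simp [e, h0]
  | succ s ih =>
    intro ν hν
    rw [A_succ]
    have h1 : ∀ i, (if Rem ν i then A (tog c) s (dec ν i) else 0) =
        (if Rem ν i then c i (ν i) else 0) * e (s + 1) ν +
        ∑ j, if j ≠ i ∧ St (inc ν j) ∧ Rem (inc ν j) i then
          c j (ν j + 1) * e (s + 1) (dec (inc ν j) i) else 0 := by
      intro i
      split_ifs with hi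
      · rw [ih _ hi.2, ← add_sum_erase _ _ (mem_univ i)]
        rw [inc_dec hi.1, if_pos hν, dec_self, Nat.sub_add_cancel hi.1]
        congr 1
        rw [← add_sum_erase univ _ (mem_univ i)]
        rw [if_neg (by simp), zero_add]
        apply sum_congr rfl
        intro j hj
        have hji : j ≠ i := (mem_erase.1 hj).1
        have := swap_iff hν (Ne.symm hji)
        rw [dec_ne _ hji]
        by_cases h2 : St (inc (dec ν i) j)
        · rw [if_pos h2, if_pos ⟨hji, this.1 ⟨hi, h2⟩⟩, dec_inc_comm _ (Ne.symm hji)]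
        · rw [if_neg h2, if_neg]
          rintro ⟨_, h3⟩
          exact h2 (this.2 h3).2
      · rw [zero_mul, zero_add]
        symm
        apply sum_eq_zero
        intro j _
        rw [if_neg]
        rintro ⟨h2, h3⟩
        exact hi ((swap_iff hν (Ne.symm h2)).2 h3).1
    rw [sum_congr rfl (fun i _ => h1 i), sum_add_distrib, ← sum_mul]
    have h2 : ∀ j, (if St (inc ν j) then c j (ν j + 1) * e (s + 1 + 1) (inc ν j) else 0) =
        (if St (inc ν j) then c j (ν j + 1) else 0) * e (s + 1) ν +
        ∑ i, if j ≠ i ∧ St (inc ν j) ∧ Rem (inc ν j) i then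
          c j (ν j + 1) * e (s + 1) (dec (inc ν j) i) else 0 := by
      intro j
      split_ifs with hj
      · rw [e_succ, ← add_sum_erase _ _ (mem_univ j), if_pos (rem_inc hν j), dec_inc, mul_add]
        congr 1
        rw [← add_sum_erase univ _ (mem_univ j), if_neg (by simp), zero_add, mul_sum]
        apply sum_congr rfl
        intro i hi
        have hij : i ≠ j := (mem_erase.1 hi).1
        by_cases h3 : Rem (inc ν j) i
        · rw [if_pos h3, if_pos ⟨Ne.symm hij, hj, h3⟩]
        · rw [if_neg h3, if_neg, mul_zero]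
          rintro ⟨_, _, h4⟩
          exact h3 h4
      · rw [zero_mul, zero_add]
        symm
        apply sum_eq_zero
        intro i _
        rw [if_neg]
        rintro ⟨_, h3, _⟩
        exact hj h3
    rw [sum_congr rfl (fun i _ => h2 i), sum_add_distrib, ← sum_mul]
    rw [sum_comm (s := (univ : Finset (Fin m))) (t := univ)
      (f := fun i j => if j ≠ i ∧ St (inc ν j) ∧ Rem (inc ν j) i then
          c j (ν j + 1) * e (s + 1) (dec (inc ν j) i) else 0)]
    unfold tog
    ring

end Pool.Agent.J4.H53.Cde
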