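import Pool.Agent.J4.H53.Cde.Hook

set_option autoImplicit false

namespace Pool.Agent.J4.H53.Cde

open Finset

open scoped Classical

variable {m : ℕ}

/-! ### Words -/

/-- the partial counts of a word -/
noncomputable def cnt {s : ℕ} (w : Fin s → Fin m) (j : ℕ) : Fin m → ℕ :=
  fun i => (univ.filter (fun t : Fin s => (t : ℕ) < j ∧ w t = i)).card

lemma cnt_snoc {s : ℕ} (w : Fin s → Fin m) (i : Fin m) {j : ℕ} (hj : j ≤ s) :
    cnt (Fin.snoc w i : Fin (s + 1) → Fin m) j = cnt w j := by
  funext a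
  unfold cnt
  rw [card_filter, card_filter, Fin.sum_univ_castSucc]
  simp only [Fin.val_castSucc, Fin.snoc_castSucc, Fin.val_last, Fin.snoc_last]
  rw [if_neg (by omega), add_zero]

lemma cnt_snoc_last {s : ℕ} (w : Fin s → Fin m) (i : Fin m) :
    cnt (Fin.snoc w i : Fin (s + 1) → Fin m) (s + 1) = inc (cnt w s) i := by
  funext a
  by_cases ha : a = i
  · subst ha
    rw [inc_self]
    unfold cnt
    rw [card_filter, card_filter, Fin.sum_univ_castSucc]
    simp only [Fin.val_castSucc, Fin.snoc_castSucc, Fin.val_last, Fin.snoc_last]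
    rw [if_pos ⟨Nat.lt_succ_self s, trivial⟩]
    congr 1
    apply sum_congr rfl
    intro t _
    have h1 : (t : ℕ) < s + 1 := by omega
    have h2 : (t : ℕ) < s := t.2
    simp only [h1, h2, true_and]
  · rw [inc_ne _ ha]
    unfold cnt
    rw [card_filter, card_filter, Fin.sum_univ_castSucc]
    simp only [Fin.val_castSucc, Fin.snoc_castSucc, Fin.val_last, Fin.snoc_last]
    rw [if_neg (by rintro ⟨_, h⟩; exact ha h.symm), add_zero]
    apply sum_congr rfl
    intro t _
    have h1 : (t : ℕ) < s + 1 := by omega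
    have h2 : (t : ℕ) < s := t.2
    simp only [h1, h2, true_and]

/-- valid words ending at `ν` -/
def Val {s : ℕ} (w : Fin s → Fin m) (ν : Fin m → ℕ) : Prop :=
  (∀ j, j ≤ s → St (cnt w j)) ∧ cnt w s = ν

lemma val_snoc {s : ℕ} (w : Fin s → Fin m) (i : Fin m) {ν : Fin m → ℕ} (hν : St ν) :
    Val (Fin.snoc w i : Fin (s + 1) → Fin m) ν ↔ (Rem ν i ∧ Val w (dec ν i)) := by
  unfold Val
  constructor
  · rintro ⟨h1, h2⟩
    rw [cnt_snoc_last] at h2
    have h3 : cnt w s = dec ν i := by rw [← h2, dec_inc]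
    have h4 : St (cnt w s) := by
      have := h1 s (Nat.le_succ s)
      rwa [cnt_snoc w i le_rfl] at this
    refine ⟨⟨?_, ?_⟩, ?_, h3⟩
    · rw [← h2, inc_self]; omega
    · rw [← h3]; exact h4
    · intro j hj
      have := h1 j (by omega)
      rwa [cnt_snoc w i hj] at this
  · rintro ⟨h1, h2, h3⟩
    have h4 : cnt (Fin.snoc w i : Fin (s + 1) → Fin m) (s + 1) = ν := by
      rw [cnt_snoc_last, h3, inc_dec h1.1]
    refine ⟨?_, h4⟩
    intro j hj
    rcases Nat.lt_or_eq_of_le hj with h5 | h5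
    · rw [cnt_snoc w i (by omega)]
      exact h2 j (by omega)
    · rw [h5, h4]; exact hν

lemma sum_snoc {s : ℕ} (Φ : (Fin (s + 1) → Fin m) → ℚ) :
    ∑ w, Φ w = ∑ i : Fin m, ∑ w : Fin s → Fin m, Φ (Fin.snoc w i) := by
  rw [← Fintype.sum_prod_type' (f := fun (i : Fin m) (w : Fin s → Fin m) => Φ (Fin.snoc w i))]
  symm
  apply Fintype.sum_equiv (Fin.snocEquiv (fun _ : Fin (s + 1) => Fin m))
  intro x
  rfl

lemma words (F : (Fin m → ℕ) → ℚ) (s : ℕ) : ∀ ν : Fin m → ℕ, St ν →
    (∑ w : Fin s → Fin m, (if Val w ν then (1 : ℚ) else 0) = e s ν) ∧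
    (∑ w : Fin s → Fin m, (if Val w ν then ∑ j ∈ range (s + 1), F (cnt w j) else 0) =
      A F s ν) := by
  induction s with
  | zero =>
    intro ν hν
    have h0 : ∀ (w : Fin 0 → Fin m) (j : ℕ), cnt w j = 0 := by
      intro w j
      funext i
      unfold cnt
      simp
    have h1 : ∀ w : Fin 0 → Fin m, Val w ν ↔ ν = 0 := by
      intro w
      unfold Val
      simp only [h0]
      constructor
      · rintro ⟨_, h⟩; exact h.symm
      · rintro rfl; exact ⟨fun _ _ => hν, rfl⟩
    simp only [h1, h0]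
    constructor
    · simp [e]
    · rw [A_zero]
      by_cases h2 : ν = 0
      · subst h2; simp [e]
      · simp [h2, e]
  | succ s ih =>
    intro ν hν
    constructor
    · rw [sum_snoc, e_succ]
      apply sum_congr rfl
      intro i _
      simp only [val_snoc _ i hν]
      by_cases hr : Rem ν i
      · simp only [hr, true_and, if_true]
        exact (ih _ hr.2).1
      · simp [hr]
    · rw [sum_snoc, A_succ, e_succ, mul_sum, ← sum_add_distrib]
      apply sum_congr rfl
      intro i _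
      simp only [val_snoc _ i hν]
      by_cases hr : Rem ν i
      · simp only [hr, true_and, if_true]
        rw [← (ih _ hr.2).1, ← (ih _ hr.2).2, mul_sum, ← sum_add_distrib]
        apply sum_congr rfl
        intro w _
        by_cases hw : Val w (dec ν i)
        · rw [if_pos hw, if_pos hw, if_pos hw, sum_range_succ, cnt_snoc_last, hw.2, inc_dec hr.1]
          rw [mul_one, add_comm]
          congr 1
          apply sum_congr rfl
          intro j hj
          rw [cnt_snoc w i (by have := mem_range.1 hj; omega)]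
        · rw [if_neg hw, if_neg hw, if_neg hw]
          ring
      · simp [hr]

lemma cnt_mono {s : ℕ} (w : Fin s → Fin m) {j : ℕ} (hj : j ≤ s) (i : Fin m) :
    cnt w j i ≤ cnt w s i := by
  unfold cnt
  apply card_le_card
  intro t ht
  rw [mem_filter] at ht ⊢
  exact ⟨mem_univ _, by omega, ht.2.2⟩

/-! ### The trapezoid -/

/-- the trapezoid -/
def T (n k : ℕ) : Fin (k + 1) → ℕ := fun i => n - 2 * (i : ℕ)

lemma T_st (n k : ℕ) (h : 2 * k < n) : St (T n k) := by
  intro i j hij
  unfold T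
  rw [Fin.lt_def] at hij
  omega

lemma T_sum (n k : ℕ) (h : 2 * k < n) : ((∑ i, T n k i : ℕ) : ℚ) = (k + 1) * (n - k) := by
  unfold T
  rw [Fin.sum_univ_eq_sum_range (fun i => n - 2 * i) (k + 1)]
  induction k with
  | zero => simp
  | succ k ih =>
    rw [sum_range_succ]
    have := ih (by omega)
    push_cast at this ⊢
    rw [this, Nat.cast_sub (by omega)]
    push_cast
    ring

lemma R_T (n k : ℕ) (h : 2 * k < n) : R (T n k) = ((n : ℚ) - 2 * k - 1) / (n + 1) := by
  have hp : ∀ K, K ≤ k → ∏ i ∈ range (K + 1), ((((n - 2 * i : ℕ) : ℚ) - 1) / (((n - 2 * i : ℕ) : ℚ) + 1)) =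
      ((n : ℚ) - 2 * K - 1) / (n + 1) := by
    intro K
    induction K with
    | zero => intro _; simp
    | succ K ih =>
      intro hK
      rw [prod_range_succ, ih (by omega), Nat.cast_sub (by omega)]
      push_cast
      have h1 : (n : ℚ) + 1 ≠ 0 := by positivity
      have h2 : (n : ℚ) - 2 * K - 1 ≠ 0 := by
        have : (2 * K + 1 : ℕ) < n := by omega
        have : ((2 * K + 1 : ℕ) : ℚ) < n := by exact_mod_cast this
        push_cast at this
        linarith
      have h3 : (n : ℚ) - 2 * (K + 1) + 1 ≠ 0 := by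
        intro h4; apply h2; linarith
      rw [show (n : ℚ) - 2 * (K + 1) + 1 = n - 2 * K - 1 by ring] at h3 ⊢
      field_simp
  unfold R
  rw [if_pos]
  · rw [← hp k le_rfl]
    unfold T
    exact Fin.prod_univ_eq_prod_range
      (fun i => ((((n - 2 * i : ℕ) : ℚ) - 1) / (((n - 2 * i : ℕ) : ℚ) + 1))) (k + 1)
  · intro i
    unfold T
    omega

lemma cw_boundary (n k : ℕ) (h : 2 * k < n) (i : Fin (k + 1)) :
    cw n k i (n - 2 * (i : ℕ) + 1) = 0 := by
  unfold cw
  rw [if_neg (by omega)]
  push_cast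
  rw [Nat.cast_sub (by omega)]
  push_cast
  ring

lemma A_sub3 (F1 F2 F3 : (Fin m → ℕ) → ℚ) (a b c : ℚ) (s : ℕ) (μ : Fin m → ℕ) :
    A (fun x => a * F1 x + (b * F2 x + c * F3 x)) s μ =
      a * A F1 s μ + (b * A F2 s μ + c * A F3 s μ) := by
  rw [A_add (fun x => a * F1 x) (fun x => b * F2 x + c * F3 x),
    A_add (fun x => b * F2 x) (fun x => c * F3 x), A_mul, A_mul, A_mul]

lemma chain_main (n k : ℕ) (h : 2 * k < n) (N : ℕ) (hN : ∑ i, T n k i = N) :
    A Dn N (T n k) = (N + 1) * e N (T n k) * (N / (n + 1)) := by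
  have hT := T_st n k h
  have t1 := toggle (fun i v => cw n k i v) N (T n k) hT
  have t2 := toggle (m := k + 1) (fun _ v => cd v) N (T n k) hT
  have z1 : (∑ i : Fin (k + 1), if St (inc (T n k) i) then
      cw n k i (T n k i + 1) * e (N + 1) (inc (T n k) i) else 0) = 0 := by
    apply sum_eq_zero
    intro i _
    have : cw n k i (T n k i + 1) = 0 := cw_boundary n k h i
    rw [this]
    simp
  have z2 : (∑ i : Fin (k + 1), if St (inc (T n k) i) then
      cd (T n k i + 1) * e (N + 1) (inc (T n k) i) else 0) = 0 := by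
    apply sum_eq_zero
    intro i _
    have : cd (T n k i + 1) = 0 := by
      unfold cd T
      rw [if_neg (by omega)]
    rw [this]
    simp
  rw [z1] at t1
  rw [z2] at t2
  rw [A_congr (G := fun μ => 2 * Dn μ + ((-((k : ℚ) + 1)) * 1 + (-((n : ℚ) - 2 * k - 1)) * io μ)) hT
    (fun ν hν _ => by rw [pointwise n k hν]; ring)] at t1
  rw [A_congr (G := fun μ => 1 * 1 + ((-2) * io μ + (-1) * Yf μ)) hT
    (fun ν hν _ => by rw [pointwise2 k hν]; ring)] at t2
  rw [A_sub3 Dn (fun _ => 1) io 2 (-((k : ℚ) + 1)) (-((n : ℚ) - 2 * k - 1)), A_one] at t1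
  rw [A_sub3 (fun _ => 1) io Yf 1 (-2) (-1), A_one, A_Y N _ hT hN, R_T n k h,
    ← e_eq_G N _ hT hN] at t2
  have h1 : (n : ℚ) + 1 ≠ 0 := by positivity
  have h2 := T_sum n k h
  rw [hN] at h2
  have t3 : A io N (T n k) = (N + 1) * e N (T n k) * ((k + 1) / (n + 1)) := by
    field_simp at t2 ⊢
    linear_combination (-1 / 2) * t2
  rw [t3] at t1
  have t4 : A Dn N (T n k) = (N + 1) * e N (T n k) * ((k + 1) * (n - k) / (n + 1)) := by
    field_simp at t1 ⊢
    linear_combination (1 / 2) * t1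
  rw [t4, h2]

end Pool.Agent.J4.H53.Cde
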