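import Pool.Agent.J4.H53.Cde.Pointwise

set_option autoImplicit false

namespace Pool.Agent.J4.H53.Cde

open Finset Polynomial

open scoped Classical

variable {m : ℕ}

section Lagr

variable {ι : Type*} [DecidableEq ι]

omit [DecidableEq ι] in
lemma degree_diff (s : Finset ι) (a b : ι → ℚ) :
    (∏ j ∈ s, (X - C (b j)) - ∏ j ∈ s, (X - C (a j)) : ℚ[X]).degree < #s := by
  have h1 : (∏ j ∈ s, (X - C (b j)) : ℚ[X]).degree = #s := by
    rw [degree_prod]; simp
  have h2 : (∏ j ∈ s, (X - C (a j)) : ℚ[X]).degree = #s := by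
    rw [degree_prod]; simp
  rw [← h1]
  apply degree_sub_lt_left
  · rw [h1, h2]
  · exact (monic_prod_of_monic s _ fun j _ => monic_X_sub_C (b j)).ne_zero
  · rw [(monic_prod_of_monic s _ fun j _ => monic_X_sub_C (b j)).leadingCoeff,
      (monic_prod_of_monic s _ fun j _ => monic_X_sub_C (a j)).leadingCoeff]

omit [DecidableEq ι] in
lemma eval_diff (s : Finset ι) (a b : ι → ℚ) {i : ι} (hi : i ∈ s) :
    (∏ j ∈ s, (X - C (b j)) - ∏ j ∈ s, (X - C (a j)) : ℚ[X]).eval (a i) =
      ∏ j ∈ s, (a i - b j) := by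
  rw [eval_sub, eval_prod, eval_prod]
  have : ∏ j ∈ s, eval (a i) (X - C (a j)) = 0 := prod_eq_zero hi (by simp)
  rw [this]
  simp

lemma pf1 (s : Finset ι) (a b : ι → ℚ) (ha : Set.InjOn a s) :
    ∑ i ∈ s, (a i - b i) * ∏ j ∈ s.erase i, (a i - b j) / (a i - a j) =
      ∑ i ∈ s, (a i - b i) := by
  rcases s.eq_empty_or_nonempty with rfl | hs
  · simp
  have h := Lagrange.coeff_eq_sum ha (degree_diff s a b)
  rw [coeff_sub, prod_X_sub_C_coeff_card_pred s b (card_pos.2 hs),
    prod_X_sub_C_coeff_card_pred s a (card_pos.2 hs)] at h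
  rw [sum_sub_distrib, ← neg_sub_neg, h]
  apply sum_congr rfl
  intro i hi
  rw [eval_diff s a b hi, prod_div_distrib, ← mul_prod_erase s _ hi]
  ring

lemma pf2 (s : Finset ι) (a b : ι → ℚ) (ha : Set.InjOn a s) (h0 : ∀ i ∈ s, a i ≠ 0) :
    ∑ i ∈ s, (a i - b i) / a i * ∏ j ∈ s.erase i, (a i - b j) / (a i - a j) =
      1 - ∏ i ∈ s, b i / a i := by
  rcases s.eq_empty_or_nonempty with rfl | hs
  · simp
  have h := Lagrange.eq_interpolate ha (degree_diff s a b)
  have h1 := congrArg (fun p : ℚ[X] => p.eval 0) h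
  simp only [Lagrange.interpolate_apply] at h1
  rw [eval_finsetSum, eval_sub, eval_prod, eval_prod] at h1
  have h2 : ∏ j ∈ s, eval 0 (X - C (b j)) = (-1) ^ #s * ∏ j ∈ s, b j := by
    rw [← prod_const, ← prod_mul_distrib]
    apply prod_congr rfl
    intro j _
    simp
  have h3 : ∏ j ∈ s, eval 0 (X - C (a j)) = (-1) ^ #s * ∏ j ∈ s, a j := by
    rw [← prod_const, ← prod_mul_distrib]
    apply prod_congr rfl
    intro j _
    simp
  rw [h2, h3] at h1
  have hne : ∏ j ∈ s, a j ≠ 0 := prod_ne_zero_iff.2 h0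
  have h4 : ∏ i ∈ s, b i / a i - 1 =
      ((-1) ^ #s * ∏ j ∈ s, b j - (-1) ^ #s * ∏ j ∈ s, a j) / ((-1) ^ #s * ∏ j ∈ s, a j) := by
    have : ((-1 : ℚ)) ^ #s ≠ 0 := pow_ne_zero _ (by norm_num)
    rw [prod_div_distrib]
    field_simp
  rw [← neg_sub, h4, h1, sum_div, ← sum_neg_distrib]
  apply sum_congr rfl
  intro i hi
  rw [eval_mul, eval_C, eval_diff s a b hi, Lagrange.basis, eval_prod, prod_div_distrib,
    ← mul_prod_erase s _ hi, ← mul_prod_erase s a hi]
  have h5 : ∏ j ∈ s.erase i, eval 0 (Lagrange.basisDivisor (a i) (a j)) =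
      ((-1) ^ (#s - 1) * ∏ j ∈ s.erase i, a j) / ∏ j ∈ s.erase i, (a i - a j) := by
    rw [← card_erase_of_mem hi, ← prod_const, ← prod_mul_distrib, ← prod_div_distrib]
    apply prod_congr rfl
    intro j _
    unfold Lagrange.basisDivisor
    simp
    ring
  rw [h5]
  have h6 : (-1 : ℚ) ^ #s = (-1) * (-1) ^ (#s - 1) := by
    have := card_pos.2 hs
    obtain ⟨c, hc⟩ := Nat.exists_eq_succ_of_ne_zero (Nat.pos_iff_ne_zero.1 this)
    rw [hc, pow_succ]
    simp
  rw [h6]
  have h7 : ((-1 : ℚ)) ^ (#s - 1) ≠ 0 := pow_ne_zero _ (by norm_num)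
  have h8 : ∏ j ∈ s.erase i, a j ≠ 0 := prod_ne_zero_iff.2 (fun j hj => h0 j (mem_of_mem_erase hj))
  have h9 : ∏ j ∈ s.erase i, (a i - a j) ≠ 0 := prod_ne_zero_iff.2 (fun j hj => by
    rw [sub_ne_zero]
    intro h
    exact (mem_erase.1 hj).1 (ha (mem_of_mem_erase hj) hi h.symm))
  have h10 := h0 i hi
  field_simp

end Lagr

/-- factor of a pair -/
noncomputable def rho (x y : ℕ) : ℚ := if y = 0 then 1 else ((x : ℚ) - y) / (x + y)

/-- factor of an ordered pair of rows -/
noncomputable def pf (μ : Fin m → ℕ) (a b : Fin m) : ℚ := if a < b then rho (μ a) (μ b) else 1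

/-- Schur's product formula -/
noncomputable def G (μ : Fin m → ℕ) : ℚ :=
  ((∑ i, μ i).factorial : ℚ) / (∏ i, ((μ i).factorial : ℚ)) * ∏ a, ∏ b, pf μ a b

lemma pf_pos {μ : Fin m → ℕ} (h : St μ) (a b : Fin m) : 0 < pf μ a b := by
  unfold pf rho
  split_ifs with h1 h2
  · norm_num
  · have := h a b h1
    have h3 : μ b < μ a := by omega
    have h4 : (μ b : ℚ) < μ a := by exact_mod_cast h3
    have h5 : (0 : ℚ) < μ b := by exact_mod_cast Nat.pos_of_ne_zero h2
    apply div_pos <;> linarith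
  · norm_num

lemma prod_cross (i : Fin m) (q : Fin m → Fin m → ℚ) (h1 : ∀ a b, a ≠ i → b ≠ i → q a b = 1)
    (h2 : q i i = 1) : ∏ a, ∏ b, q a b = ∏ j ∈ univ.erase i, (q i j * q j i) := by
  rw [← mul_prod_erase univ _ (mem_univ i), prod_mul_distrib]
  rw [← mul_prod_erase univ (fun b => q i b) (mem_univ i), h2, one_mul]
  congr 1
  apply prod_congr rfl
  intro a ha
  rw [← mul_prod_erase univ (fun b => q a b) (mem_univ i)]
  rw [prod_eq_one, mul_one]
  intro b hb
  exact h1 a b (mem_erase.1 ha).1 (mem_erase.1 hb).1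

/-- `μ_i (μ_i - 1)` -/
def av (μ : Fin m → ℕ) (i : Fin m) : ℚ := (μ i : ℚ) ^ 2 - μ i

/-- `μ_i (μ_i + 1)` -/
def bv (μ : Fin m → ℕ) (i : Fin m) : ℚ := (μ i : ℚ) ^ 2 + μ i

/-- nonzero rows -/
noncomputable def sup (μ : Fin m → ℕ) : Finset (Fin m) := univ.filter (fun i => 0 < μ i)

lemma ratio_pair {μ : Fin m → ℕ} (h : St μ) {i j : Fin m} (hi : 0 < μ i) (hij : j ≠ i) :
    (pf (dec μ i) i j / pf μ i j) * (pf (dec μ i) j i / pf μ j i) =
      if 0 < μ j then (av μ i - bv μ j) / (av μ i - av μ j) else 1 := by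
  unfold pf rho av bv
  rw [dec_self, dec_ne _ hij]
  have hi' : ((μ i - 1 : ℕ) : ℚ) = (μ i : ℚ) - 1 := by
    rw [Nat.cast_sub hi]; simp
  have hi1 : (1 : ℚ) ≤ μ i := by exact_mod_cast hi
  rcases lt_or_gt_of_ne hij with hlt | hgt
  · -- j < i
    have h1 := h j i hlt
    have h2 : μ i < μ j := by omega
    have h3 : (μ i : ℚ) + 1 ≤ μ j := by exact_mod_cast h2
    rw [if_neg (not_lt.2 hlt.le), if_neg (not_lt.2 hlt.le), if_pos hlt, if_pos hlt,
      if_pos (by omega : 0 < μ j), if_neg (by omega : ¬ μ i = 0), hi', div_one, one_mul]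
    have e1 : (μ j : ℚ) - μ i ≠ 0 := by linarith
    have e2 : (μ j : ℚ) + μ i ≠ 0 := by linarith
    have e3 : (μ j : ℚ) + (μ i - 1) ≠ 0 := by linarith
    rw [show (μ i : ℚ) ^ 2 - μ i - ((μ j : ℚ) ^ 2 - μ j) = -(((μ j : ℚ) - μ i) * (μ j + (μ i - 1))) by
      ring]
    by_cases h4 : μ i - 1 = 0
    · rw [if_pos h4]
      have h5 : μ i = 1 := by omega
      rw [h5] at e1 e2 e3 ⊢
      push_cast at e1 e2 e3 ⊢
      rw [sub_self, add_zero] at e3 ⊢
      field_simp
      ring
    · rw [if_neg h4]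
      field_simp
      ring
  · -- i < j
    have h1 := h i j hgt
    rw [if_pos hgt, if_pos hgt, if_neg (not_lt.2 (le_of_lt hgt)), if_neg (not_lt.2 (le_of_lt hgt)),
      div_one, mul_one]
    by_cases h2 : 0 < μ j
    · have h3 : (μ j : ℚ) + 1 ≤ μ i := by
        have : μ j < μ i := by omega
        exact_mod_cast this
      have h4 : (1 : ℚ) ≤ μ j := by exact_mod_cast h2
      rw [if_neg (by omega : ¬ μ j = 0), if_neg (by omega : ¬ μ j = 0), if_pos h2, hi']
      have e1 : (μ i : ℚ) - μ j ≠ 0 := by linarith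
      have e2 : (μ i : ℚ) + μ j ≠ 0 := by linarith
      have e3 : (μ i : ℚ) - 1 + μ j ≠ 0 := by linarith
      rw [show (μ i : ℚ) ^ 2 - μ i - ((μ j : ℚ) ^ 2 - μ j) = ((μ i : ℚ) - μ j) * (μ i - 1 + μ j) by
        ring]
      field_simp
      ring
    · rw [if_pos (by omega : μ j = 0), if_pos (by omega : μ j = 0), if_neg h2]
      simp

lemma sum_dec {μ : Fin m → ℕ} {i : Fin m} (hi : 0 < μ i) : ∑ j, dec μ i j + 1 = ∑ j, μ j := by
  rw [← add_sum_erase univ _ (mem_univ i), ← add_sum_erase univ μ (mem_univ i), dec_self]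
  have : ∑ j ∈ univ.erase i, dec μ i j = ∑ j ∈ univ.erase i, μ j :=
    sum_congr rfl (fun j hj => dec_ne _ (mem_erase.1 hj).1)
  rw [this]
  omega

lemma prod_fact_dec {μ : Fin m → ℕ} {i : Fin m} (hi : 0 < μ i) :
    (μ i : ℚ) * ∏ j, ((dec μ i j).factorial : ℚ) = ∏ j, ((μ j).factorial : ℚ) := by
  rw [← mul_prod_erase univ _ (mem_univ i),
    ← mul_prod_erase univ (fun j => ((μ j).factorial : ℚ)) (mem_univ i), dec_self]
  have : ∏ j ∈ univ.erase i, ((dec μ i j).factorial : ℚ) = ∏ j ∈ univ.erase i, ((μ j).factorial : ℚ) :=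
    prod_congr rfl (fun j hj => by rw [dec_ne _ (mem_erase.1 hj).1])
  rw [this, ← mul_assoc]
  congr 1
  rw [← Nat.mul_factorial_pred hi.ne']
  push_cast
  ring

lemma G_dec {μ : Fin m → ℕ} (h : St μ) {i : Fin m} (hi : 0 < μ i) :
    ((∑ j, μ j : ℕ) : ℚ) * G (dec μ i) =
      G μ * ((μ i : ℚ) * ∏ j ∈ (sup μ).erase i, (av μ i - bv μ j) / (av μ i - av μ j)) := by
  have h1 : ∏ a, ∏ b, pf (dec μ i) a b = (∏ a, ∏ b, pf μ a b) *
      ∏ j ∈ (sup μ).erase i, (av μ i - bv μ j) / (av μ i - av μ j) := by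
    have h2 : ∏ a, ∏ b, pf (dec μ i) a b = (∏ a, ∏ b, pf μ a b) *
        ∏ a, ∏ b, (pf (dec μ i) a b / pf μ a b) := by
      rw [← prod_mul_distrib]
      apply prod_congr rfl
      intro a _
      rw [← prod_mul_distrib]
      apply prod_congr rfl
      intro b _
      rw [mul_div_cancel₀ _ (pf_pos h a b).ne']
    rw [h2, prod_cross i (fun a b => pf (dec μ i) a b / pf μ a b)]
    · congr 1
      have h3 : (sup μ).erase i ⊆ univ.erase i := erase_subset_erase _ (subset_univ _)
      rw [← prod_subset h3]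
      · apply prod_congr rfl
        intro j hj
        rw [ratio_pair h hi (mem_erase.1 hj).1, if_pos]
        have := mem_of_mem_erase hj
        unfold sup at this
        exact (mem_filter.1 this).2
      · intro j hj hj2
        rw [ratio_pair h hi (mem_erase.1 hj).1, if_neg]
        intro h4
        apply hj2
        rw [mem_erase]
        refine ⟨(mem_erase.1 hj).1, ?_⟩
        unfold sup
        rw [mem_filter]
        exact ⟨mem_univ _, h4⟩
    · intro a b ha hb
      have : pf (dec μ i) a b = pf μ a b := by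
        unfold pf; rw [dec_ne _ ha, dec_ne _ hb]
      simp only [this]
      exact div_self (pf_pos h a b).ne'
    · have : pf (dec μ i) i i = pf μ i i := by
        unfold pf; simp
      simp only [this]
      exact div_self (pf_pos h i i).ne'
  unfold G
  rw [h1, ← prod_fact_dec hi]
  have h2 := sum_dec hi
  rw [← h2, Nat.factorial_succ]
  have h3 : (∏ j, ((dec μ i j).factorial : ℚ)) ≠ 0 :=
    prod_ne_zero_iff.2 (fun j _ => by exact_mod_cast (Nat.factorial_pos _).ne')
  have h4 : (μ i : ℚ) ≠ 0 := by exact_mod_cast hi.ne'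
  push_cast
  field_simp

lemma av_inj {μ : Fin m → ℕ} (h : St μ) : Set.InjOn (av μ) (sup μ) := by
  intro i hi j hj hij
  by_contra hne
  have key : ∀ a b : Fin m, a < b → 0 < μ b → av μ a = av μ b → False := by
    intro a b hab hb he
    have h1 := h a b hab
    have h2 : (μ b : ℚ) + 1 ≤ μ a := by
      have : μ b < μ a := by omega
      exact_mod_cast this
    have h3 : (1 : ℚ) ≤ μ b := by exact_mod_cast hb
    unfold av at he
    have h4 : ((μ a : ℚ) - μ b) * (μ a + μ b - 1) = 0 := by linear_combination he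
    rcases mul_eq_zero.1 h4 with h5 | h5 <;> linarith
  have hi' : 0 < μ i := by
    have : i ∈ sup μ := hi
    unfold sup at this
    exact (mem_filter.1 this).2
  have hj' : 0 < μ j := by
    have : j ∈ sup μ := hj
    unfold sup at this
    exact (mem_filter.1 this).2
  rcases lt_or_gt_of_ne hne with hlt | hgt
  · exact key i j hlt hj' hij
  · exact key j i hgt hi' hij.symm

lemma sum_sup {μ : Fin m → ℕ} (f : Fin m → ℚ) (hf : ∀ i, μ i = 0 → f i = 0) :
    ∑ i ∈ sup μ, f i = ∑ i, f i := by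
  apply sum_subset (subset_univ _)
  intro i _ hi
  apply hf
  by_contra h
  apply hi
  unfold sup
  rw [mem_filter]
  exact ⟨mem_univ _, Nat.pos_of_ne_zero h⟩

lemma G_dec_not {μ : Fin m → ℕ} (h : St μ) {i : Fin m} (hi : 0 < μ i) (hn : ¬ Rem μ i) :
    G (dec μ i) = 0 := by
  rw [rem_iff h, ext_fin] at hn
  push Not at hn
  have h1 := hn hi
  have h2 : (i : ℕ) + 1 < m := by
    by_contra h3
    exact h1.1 (ext_ge μ (by omega))
  have h3 := h.ext (show (i : ℕ) < i + 1 by omega)
  rw [ext_fin μ i] at h3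
  have h4 : μ i - 1 = ext μ (i + 1) := by omega
  unfold G
  have : ∏ a, ∏ b, pf (dec μ i) a b = 0 := by
    apply prod_eq_zero (mem_univ i)
    apply prod_eq_zero (mem_univ ⟨(i : ℕ) + 1, h2⟩)
    unfold pf
    rw [if_pos (by rw [Fin.lt_def]; simp), dec_self, dec_ne _ (by rw [Ne, Fin.ext_iff]; simp)]
    have h5 : μ ⟨(i : ℕ) + 1, h2⟩ = ext μ (i + 1) := by
      unfold ext; rw [dif_pos h2]
    rw [h5, h4]
    unfold rho
    rw [if_neg h1.1]
    simp
  rw [this, mul_zero]

lemma G_rec {μ : Fin m → ℕ} (h : St μ) (h0 : 0 < ∑ j, μ j) :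
    ∑ i, (if Rem μ i then G (dec μ i) else 0) = G μ := by
  have h1 : ∀ i, (if Rem μ i then G (dec μ i) else 0) = if 0 < μ i then G (dec μ i) else 0 := by
    intro i
    by_cases hr : Rem μ i
    · rw [if_pos hr, if_pos hr.1]
    · rw [if_neg hr]
      split_ifs with hi
      · rw [G_dec_not h hi hr]
      · rfl
  rw [sum_congr rfl (fun i _ => h1 i), ← sum_filter]
  have hN : ((∑ j, μ j : ℕ) : ℚ) ≠ 0 := by exact_mod_cast h0.ne'
  apply mul_left_cancel₀ hN
  rw [mul_sum]
  have h2 : ∀ i ∈ univ.filter (fun i => 0 < μ i), ((∑ j, μ j : ℕ) : ℚ) * G (dec μ i) =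
      G μ * ((μ i : ℚ) * ∏ j ∈ (sup μ).erase i, (av μ i - bv μ j) / (av μ i - av μ j)) :=
    fun i hi => G_dec h (mem_filter.1 hi).2
  rw [sum_congr rfl h2, ← mul_sum, mul_comm]
  congr 1
  have h3 := pf1 (sup μ) (av μ) (bv μ) (av_inj h)
  have h4 : ∀ i, av μ i - bv μ i = (-2) * (μ i : ℚ) := by
    intro i; unfold av bv; ring
  simp only [h4] at h3
  have h5 : ∑ i ∈ sup μ, (-2) * (μ i : ℚ) * ∏ j ∈ (sup μ).erase i, (av μ i - bv μ j) / (av μ i - av μ j)
      = (-2) * ∑ i ∈ sup μ, ((μ i : ℚ) * ∏ j ∈ (sup μ).erase i, (av μ i - bv μ j) / (av μ i - av μ j)) := by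
    rw [mul_sum]
    apply sum_congr rfl
    intro i _
    ring
  rw [h5, ← mul_sum] at h3
  have h6 := mul_left_cancel₀ (by norm_num : (-2 : ℚ) ≠ 0) h3
  change ∑ i ∈ sup μ, _ = _
  rw [h6, sum_sup _ (fun i hi => by rw [hi]; simp)]
  push_cast
  rfl

lemma G_zero : G (0 : Fin m → ℕ) = 1 := by
  unfold G pf rho
  simp

lemma e_eq_G (s : ℕ) : ∀ μ : Fin m → ℕ, St μ → ∑ j, μ j = s → e s μ = G μ := by
  induction s with
  | zero =>
    intro μ _ hs
    have : μ = 0 := by
      funext i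
      have := (sum_eq_zero_iff.1 hs) i (mem_univ i)
      simpa using this
    subst this
    rw [G_zero]
    simp [e]
  | succ s ih =>
    intro μ hμ hs
    rw [e_succ, ← G_rec hμ (by omega)]
    apply sum_congr rfl
    intro i _
    split_ifs with hi
    · apply ih _ hi.2
      have := sum_dec hi.1
      omega
    · rfl

lemma G_pos {μ : Fin m → ℕ} (h : St μ) : 0 < G μ := by
  unfold G
  apply mul_pos
  · apply div_pos
    · exact_mod_cast Nat.factorial_pos _
    · exact prod_pos (fun i _ => by exact_mod_cast Nat.factorial_pos _)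
  · exact prod_pos (fun a _ => prod_pos (fun b _ => pf_pos h a b))

/-- the factor `∏ (μ_i - 1) / (μ_i + 1)` -/
noncomputable def R (μ : Fin m → ℕ) : ℚ :=
  if ∀ i, 0 < μ i then ∏ i, ((μ i : ℚ) - 1) / (μ i + 1) else 0

lemma R_zero_of {μ : Fin m → ℕ} {i : Fin m} (h : μ i ≤ 1) : R μ = 0 := by
  unfold R
  split_ifs with hp
  · apply prod_eq_zero (mem_univ i)
    have : μ i = 1 := by have := hp i; omega
    rw [this]; simp
  · rfl

lemma R_dec {μ : Fin m → ℕ} (h2 : ∀ i, 2 ≤ μ i) (i : Fin m) :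
    R (dec μ i) = R μ * (1 - 2 / av μ i) := by
  unfold R
  rw [if_pos, if_pos]
  · rw [← mul_prod_erase univ _ (mem_univ i),
      ← mul_prod_erase univ (fun j => ((μ j : ℚ) - 1) / (μ j + 1)) (mem_univ i), dec_self]
    have : ∏ j ∈ univ.erase i, ((dec μ i j : ℚ) - 1) / (dec μ i j + 1) =
        ∏ j ∈ univ.erase i, ((μ j : ℚ) - 1) / (μ j + 1) :=
      prod_congr rfl (fun j hj => by rw [dec_ne _ (mem_erase.1 hj).1])
    rw [this]
    have hi := h2 i
    have hi' : ((μ i - 1 : ℕ) : ℚ) = (μ i : ℚ) - 1 := by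
      rw [Nat.cast_sub (by omega)]; simp
    have hi2 : (2 : ℚ) ≤ μ i := by exact_mod_cast hi
    rw [hi']
    unfold av
    have e1 : (μ i : ℚ) ^ 2 - μ i ≠ 0 := by nlinarith
    have e2 : (μ i : ℚ) + 1 ≠ 0 := by linarith
    have e3 : (μ i : ℚ) - 1 + 1 ≠ 0 := by linarith
    have e4 : (μ i : ℚ) - 1 ≠ 0 := by linarith
    field_simp
    ring
  · intro j; have := h2 j; omega
  · intro j
    by_cases hj : j = i
    · subst hj; rw [dec_self]; have := h2 j; omega
    · rw [dec_ne _ hj]; have := h2 j; omega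

lemma A_Y (s : ℕ) : ∀ μ : Fin m → ℕ, St μ → ∑ j, μ j = s → A Yf s μ = (s + 1) * G μ * R μ := by
  induction s with
  | zero =>
    intro μ hμ hs
    have : μ = 0 := by
      funext i
      have := (sum_eq_zero_iff.1 hs) i (mem_univ i)
      simpa using this
    subst this
    rw [G_zero, A_zero]
    unfold Yf R
    cases m <;> simp [e]
  | succ s ih =>
    intro μ hμ hs
    rw [A_succ, e_eq_G _ μ hμ hs]
    have h1 : ∀ i, (if Rem μ i then A Yf s (dec μ i) else 0) =
        if Rem μ i then ((s : ℚ) + 1) * G (dec μ i) * R (dec μ i) else 0 := by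
      intro i
      split_ifs with hi
      · apply ih _ hi.2
        have := sum_dec hi.1
        omega
      · rfl
    rw [sum_congr rfl (fun i _ => h1 i)]
    by_cases h2 : ∀ i, 2 ≤ μ i
    · have hY : Yf μ = 1 := by unfold Yf; rw [if_pos h2]
      have hsup : sup μ = univ := by
        unfold sup
        apply filter_true_of_mem
        intro i _
        have := h2 i
        omega
      have hav : ∀ i ∈ (univ : Finset (Fin m)), av μ i ≠ 0 := by
        intro i _
        have h3 : (2 : ℚ) ≤ μ i := by exact_mod_cast h2 i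
        unfold av
        nlinarith
      have h3 : ∀ i, (if Rem μ i then ((s : ℚ) + 1) * G (dec μ i) * R (dec μ i) else 0) =
          G μ * R μ * ((μ i : ℚ) * (1 - 2 / av μ i) *
            ∏ j ∈ univ.erase i, (av μ i - bv μ j) / (av μ i - av μ j)) := by
        intro i
        have hi : 0 < μ i := by have := h2 i; omega
        have h4 := G_dec hμ hi
        rw [hs, hsup] at h4
        push_cast at h4
        have h5 : (if Rem μ i then ((s : ℚ) + 1) * G (dec μ i) * R (dec μ i) else 0) =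
            ((s : ℚ) + 1) * G (dec μ i) * R (dec μ i) := by
          split_ifs with hr
          · rfl
          · rw [G_dec_not hμ hi hr]; ring
        rw [h5, h4, R_dec h2]
        ring
      rw [sum_congr rfl (fun i _ => h3 i), ← mul_sum, hY]
      have q1 := pf1 univ (av μ) (bv μ) (by rw [← hsup]; exact av_inj hμ)
      have q2 := pf2 univ (av μ) (bv μ) (by rw [← hsup]; exact av_inj hμ) hav
      have h4 : ∀ i, av μ i - bv μ i = (-2) * (μ i : ℚ) := by
        intro i; unfold av bv; ring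
      simp only [h4] at q1 q2
      have q3 : ∑ i, (-2) * (μ i : ℚ) = (-2) * ((s : ℚ) + 1) := by
        rw [← mul_sum, ← Nat.cast_sum, hs]
        push_cast
        ring
      rw [q3] at q1
      have q4 : ∑ i, ((μ i : ℚ) * (1 - 2 / av μ i) *
            ∏ j ∈ univ.erase i, (av μ i - bv μ j) / (av μ i - av μ j)) =
          -(1 / 2) * ∑ i, (-2) * (μ i : ℚ) *
            ∏ j ∈ univ.erase i, (av μ i - bv μ j) / (av μ i - av μ j) +
          ∑ i, (-2) * (μ i : ℚ) / av μ i *
            ∏ j ∈ univ.erase i, (av μ i - bv μ j) / (av μ i - av μ j) := by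
        rw [mul_sum, ← sum_add_distrib]
        apply sum_congr rfl
        intro i _
        ring
      rw [q4, q1, q2]
      have q5 : R μ * ∏ i, bv μ i / av μ i = 1 := by
        unfold R
        rw [if_pos (fun i => by have := h2 i; omega), ← prod_mul_distrib]
        apply prod_eq_one
        intro i _
        have h3 : (2 : ℚ) ≤ μ i := by exact_mod_cast h2 i
        unfold av bv
        have e1 : (μ i : ℚ) ^ 2 - μ i ≠ 0 := by nlinarith
        have e2 : (μ i : ℚ) + 1 ≠ 0 := by linarith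
        have e4 : (μ i : ℚ) - 1 ≠ 0 := by linarith
        have e5 : (μ i : ℚ) ≠ 0 := by linarith
        rw [show (μ i : ℚ) ^ 2 - μ i = (μ i : ℚ) * (μ i - 1) by ring,
          show (μ i : ℚ) ^ 2 + μ i = (μ i : ℚ) * (μ i + 1) by ring]
        field_simp
      push_cast
      linear_combination (-G μ) * q5
    · push Not at h2
      obtain ⟨i0, hi0⟩ := h2
      have hY : Yf μ = 0 := by
        unfold Yf; rw [if_neg]; intro h3; have := h3 i0; omega
      rw [hY, R_zero_of (by omega : μ i0 ≤ 1), zero_mul, mul_zero, zero_add]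
      apply sum_eq_zero
      intro i _
      split_ifs with hr
      · rw [R_zero_of (i := i0), mul_zero]
        by_cases h3 : i0 = i
        · subst h3; rw [dec_self]; omega
        · rw [dec_ne _ h3]; omega
      · rfl

end Pool.Agent.J4.H53.Cde
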