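import Pool.Agent.J4.H53.Cde.Basic

set_option autoImplicit false

namespace Pool.Agent.J4.H53.Cde

open Finset

open scoped Classical

variable {m : ℕ}

/-- extension of `μ` by zero -/
def ext (μ : Fin m → ℕ) (i : ℕ) : ℕ := if h : i < m then μ ⟨i, h⟩ else 0

lemma ext_fin (μ : Fin m → ℕ) (i : Fin m) : ext μ i = μ i := by
  unfold ext; rw [dif_pos i.2]

lemma ext_ge (μ : Fin m → ℕ) {i : ℕ} (h : m ≤ i) : ext μ i = 0 := by
  unfold ext; rw [dif_neg (by omega)]

lemma St.ext {μ : Fin m → ℕ} (h : St μ) {i j : ℕ} (hij : i < j) :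
    ext μ j = 0 ∨ ext μ j < ext μ i := by
  by_cases hj : j < m
  · have := h ⟨i, by omega⟩ ⟨j, hj⟩ hij
    unfold Cde.ext
    rw [dif_pos hj, dif_pos (by omega : i < m)]
    exact this
  · left; exact ext_ge μ (by omega)

lemma st_inc_iff {μ : Fin m → ℕ} (h : St μ) (i : Fin m) :
    St (inc μ i) ↔ ((i : ℕ) = 0 ∨ ext μ i + 1 < ext μ (i - 1)) := by
  constructor
  · intro hs
    by_cases h0 : (i : ℕ) = 0
    · exact Or.inl h0
    · right
      have hi : (i : ℕ) - 1 < m := by omega
      have := hs ⟨(i : ℕ) - 1, hi⟩ i (by rw [Fin.lt_def]; simp; omega)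
      rw [inc_self, inc_ne _ (by rw [Ne, Fin.ext_iff]; simp; omega)] at this
      rw [ext_fin]
      unfold ext
      rw [dif_pos hi]
      omega
  · intro hc a b hab
    by_cases hbi : b = i
    · subst hbi
      rw [inc_self, inc_ne _ (ne_of_lt hab)]
      right
      rcases hc with hc | hc
      · rw [Fin.lt_def] at hab; omega
      · have h1 : (a : ℕ) ≤ b - 1 := by rw [Fin.lt_def] at hab; omega
        rw [ext_fin] at hc
        rcases Nat.lt_or_eq_of_le h1 with h2 | h2
        · have := h.ext h2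
          rw [ext_fin μ a] at this
          omega
        · rw [← h2, ext_fin] at hc
          exact hc
    · rw [inc_ne _ hbi]
      have := h a b hab
      by_cases hai : a = i
      · subst hai; rw [inc_self]; omega
      · rw [inc_ne _ hai]; exact this

lemma rem_iff {μ : Fin m → ℕ} (h : St μ) (i : Fin m) :
    Rem μ i ↔ (0 < ext μ i ∧ (ext μ (i + 1) = 0 ∨ ext μ (i + 1) + 1 < ext μ i)) := by
  unfold Rem
  rw [ext_fin]
  constructor
  · rintro ⟨h1, h2⟩
    refine ⟨h1, ?_⟩
    by_cases hi : (i : ℕ) + 1 < m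
    · have := h2 i ⟨(i : ℕ) + 1, hi⟩ (by rw [Fin.lt_def]; simp)
      rw [dec_self, dec_ne _ (by rw [Ne, Fin.ext_iff]; simp)] at this
      unfold ext
      rw [dif_pos hi]
      omega
    · left; exact ext_ge μ (by omega)
  · rintro ⟨h1, h2⟩
    refine ⟨h1, ?_⟩
    intro a b hab
    by_cases hai : a = i
    · subst hai
      rw [dec_self, dec_ne _ (ne_of_gt hab)]
      have h3 : (a : ℕ) + 1 ≤ b := by rw [Fin.lt_def] at hab; omega
      rcases Nat.lt_or_eq_of_le h3 with h4 | h4
      · have := h.ext h4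
        rw [ext_fin μ b] at this
        omega
      · rw [h4, ext_fin] at h2
        omega
    · rw [dec_ne _ hai]
      have := h a b hab
      by_cases hbi : b = i
      · subst hbi; rw [dec_self]; omega
      · rw [dec_ne _ hbi]; exact this

/-- the indicator of `1` being a part -/
noncomputable def io (μ : Fin m → ℕ) : ℚ := if ∃ i, μ i = 1 then 1 else 0

/-- the indicator of all entries being at least `2` -/
noncomputable def Yf (μ : Fin m → ℕ) : ℚ := if ∀ i, 2 ≤ μ i then 1 else 0

/-- number of removable rows -/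
noncomputable def Dn (μ : Fin m → ℕ) : ℚ := ∑ i : Fin m, if Rem μ i then 1 else 0

/-- weight function -/
noncomputable def cw (n k : ℕ) (i v : ℕ) : ℚ :=
  2 * i + v - (n + 1) + (if v = 1 then (n : ℚ) - k - 1 - i else 0)

/-- weight function -/
noncomputable def cd (v : ℕ) : ℚ := if v = 1 then 1 else 0

lemma split_sums (M : ℕ) (f h : ℕ → ℚ) : ∑ i ∈ range (M + 1 + 1), f i - ∑ i ∈ range (M + 1), h i =
    (∑ i ∈ range (M + 1), f i - ∑ i ∈ range M, h i) + (f (M + 1) - h M) := by
  rw [sum_range_succ f (M + 1), sum_range_succ h M]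
  ring

lemma aux1 (n k : ℕ) (g : ℕ → ℕ) (hg : ∀ i j, i < j → g j = 0 ∨ g j < g i) (M : ℕ) :
    (∑ i ∈ range (M + 1), if (i = 0 ∨ g i + 1 < g (i - 1)) then cw n k i (g i + 1) else 0) -
      (∑ i ∈ range M, if (0 < g i ∧ (g (i + 1) = 0 ∨ g (i + 1) + 1 < g i)) then
        cw n k i (g i) + 2 else 0) =
    if 0 < g M then (g M : ℚ) - n + M else
      -((k : ℚ) + 1) - ((n : ℚ) - 2 * k - 1) * (if ∃ i, i ≤ M ∧ g i = 1 then 1 else 0) := by
  induction M with
  | zero =>
    simp only [zero_add, range_one, sum_singleton, true_or, if_true, range_zero, sum_empty]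
    by_cases h : 0 < g 0
    · rw [if_pos h]
      unfold cw
      rw [if_neg (by omega)]
      push_cast
      ring
    · have h0 : g 0 = 0 := by omega
      rw [if_neg h, if_neg]
      · unfold cw
        rw [h0]
        simp
        ring
      · rintro ⟨i, hi, h1⟩
        have : i = 0 := by omega
        subst this
        omega
  | succ M ih =>
    rw [split_sums, ih]
    have hgM := hg M (M + 1) (Nat.lt_succ_self M)
    rw [Nat.add_sub_cancel]
    by_cases h1 : 0 < g M
    · rw [if_pos h1]
      by_cases h2 : 0 < g (M + 1)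
      · rw [if_pos h2]
        by_cases h3 : g (M + 1) + 1 < g M
        · rw [if_pos (Or.inr h3), if_pos ⟨h1, Or.inr h3⟩]
          unfold cw
          rw [if_neg (by omega), if_neg (by omega)]
          push_cast
          ring
        · rw [if_neg (by omega), if_neg (by omega)]
          have : g M = g (M + 1) + 1 := by omega
          rw [this]
          push_cast
          ring
      · have h2' : g (M + 1) = 0 := by omega
        rw [if_neg h2]
        by_cases h3 : g M = 1
        · rw [if_neg (by omega), if_pos ⟨h1, Or.inl h2'⟩, if_pos ⟨M, Nat.le_succ M, h3⟩]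
          unfold cw
          rw [if_pos h3, h3]
          push_cast
          ring
        · rw [if_pos (by omega), if_pos ⟨h1, Or.inl h2'⟩, if_neg]
          · unfold cw
            rw [h2', if_neg h3, if_pos rfl]
            push_cast
            ring
          · rintro ⟨i, hi, h4⟩
            rcases Nat.lt_or_eq_of_le hi with h5 | h5
            · rcases Nat.lt_or_eq_of_le (Nat.lt_succ_iff.1 h5) with h6 | h6
              · have := hg i M h6
                omega
              · rw [h6] at h4; exact h3 h4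
            · rw [h5] at h4; omega
    · have h1' : g M = 0 := by omega
      have h2' : g (M + 1) = 0 := by omega
      have : (∃ i, i ≤ M ∧ g i = 1) ↔ (∃ i, i ≤ M + 1 ∧ g i = 1) := by
        constructor
        · rintro ⟨i, hi, h⟩; exact ⟨i, by omega, h⟩
        · rintro ⟨i, hi, h⟩
          refine ⟨i, ?_, h⟩
          by_contra hlt
          have : i = M + 1 := by omega
          subst this
          omega
      have q1 : ¬ (M + 1 = 0 ∨ g (M + 1) + 1 < g M) := by omega
      have q2 : ¬ (0 < g M ∧ (g (M + 1) = 0 ∨ g (M + 1) + 1 < g M)) := by omega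
      have q3 : ¬ 0 < g (M + 1) := by omega
      simp only [this, if_neg h1, if_neg q1, if_neg q2, if_neg q3, sub_zero, add_zero]

lemma aux2 (g : ℕ → ℕ) (hg : ∀ i j, i < j → g j = 0 ∨ g j < g i) (M : ℕ) :
    (∑ i ∈ range (M + 1), if (i = 0 ∨ g i + 1 < g (i - 1)) then cd (g i + 1) else 0) -
      (∑ i ∈ range M, if (0 < g i ∧ (g (i + 1) = 0 ∨ g (i + 1) + 1 < g i)) then
        cd (g i) else 0) =
    if 0 < g M then (0 : ℚ) else
      1 - 2 * (if ∃ i, i ≤ M ∧ g i = 1 then 1 else 0) := by
  induction M with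
  | zero =>
    simp only [zero_add, range_one, sum_singleton, true_or, if_true, range_zero, sum_empty]
    by_cases h : 0 < g 0
    · rw [if_pos h]
      unfold cd
      rw [if_neg (by omega)]
      ring
    · have h0 : g 0 = 0 := by omega
      rw [if_neg h, if_neg]
      · unfold cd
        rw [h0]
        simp
      · rintro ⟨i, hi, h1⟩
        have : i = 0 := by omega
        subst this
        omega
  | succ M ih =>
    rw [split_sums, ih]
    have hgM := hg M (M + 1) (Nat.lt_succ_self M)
    rw [Nat.add_sub_cancel]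
    by_cases h1 : 0 < g M
    · rw [if_pos h1]
      by_cases h2 : 0 < g (M + 1)
      · rw [if_pos h2]
        unfold cd
        rw [if_neg (by omega : ¬ g (M + 1) + 1 = 1), if_neg (by omega : ¬ g M = 1)]
        simp
      · have h2' : g (M + 1) = 0 := by omega
        rw [if_neg h2]
        by_cases h3 : g M = 1
        · rw [if_neg (by omega), if_pos ⟨h1, Or.inl h2'⟩, if_pos ⟨M, Nat.le_succ M, h3⟩]
          unfold cd
          rw [if_pos h3]
          norm_num
        · rw [if_pos (by omega), if_pos ⟨h1, Or.inl h2'⟩, if_neg]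
          · unfold cd
            rw [h2', if_neg h3]
            norm_num
          · rintro ⟨i, hi, h4⟩
            rcases Nat.lt_or_eq_of_le hi with h5 | h5
            · rcases Nat.lt_or_eq_of_le (Nat.lt_succ_iff.1 h5) with h6 | h6
              · have := hg i M h6
                omega
              · rw [h6] at h4; exact h3 h4
            · rw [h5] at h4; omega
    · have h1' : g M = 0 := by omega
      have h2' : g (M + 1) = 0 := by omega
      have : (∃ i, i ≤ M ∧ g i = 1) ↔ (∃ i, i ≤ M + 1 ∧ g i = 1) := by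
        constructor
        · rintro ⟨i, hi, h⟩; exact ⟨i, by omega, h⟩
        · rintro ⟨i, hi, h⟩
          refine ⟨i, ?_, h⟩
          by_contra hlt
          have : i = M + 1 := by omega
          subst this
          omega
      have q1 : ¬ (M + 1 = 0 ∨ g (M + 1) + 1 < g M) := by omega
      have q2 : ¬ (0 < g M ∧ (g (M + 1) = 0 ∨ g (M + 1) + 1 < g M)) := by omega
      have q3 : ¬ 0 < g (M + 1) := by omega
      simp only [this, if_neg h1, if_neg q1, if_neg q2, if_neg q3, sub_zero, add_zero]

lemma io_eq {k : ℕ} (μ : Fin (k + 1) → ℕ) :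
    io μ = if ∃ i, i ≤ k ∧ ext μ i = 1 then 1 else 0 := by
  unfold io
  have : (∃ i, μ i = 1) ↔ (∃ i, i ≤ k ∧ ext μ i = 1) := by
    constructor
    · rintro ⟨i, hi⟩; exact ⟨i, by omega, by rw [ext_fin]; exact hi⟩
    · rintro ⟨i, hi, h⟩
      refine ⟨⟨i, by omega⟩, ?_⟩
      rw [← ext_fin μ ⟨i, by omega⟩]; exact h
  simp only [this]

lemma sum_fin (k : ℕ) (f : ℕ → ℚ) : ∑ i : Fin (k + 1), f i = ∑ i ∈ range (k + 1), f i :=
  Fin.sum_univ_eq_sum_range f (k + 1)

/-- the main pointwise identity -/
lemma pointwise (n k : ℕ) {μ : Fin (k + 1) → ℕ} (h : St μ) :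
    tog (fun i v => cw n k i v) μ = 2 * Dn μ - (k + 1) - ((n : ℚ) - 2 * k - 1) * io μ := by
  have hg : ∀ i j, i < j → ext μ j = 0 ∨ ext μ j < ext μ i := fun i j hij => h.ext hij
  have hk : ext μ (k + 1) = 0 := ext_ge μ le_rfl
  have e1 : (∑ i : Fin (k + 1), if St (inc μ i) then cw n k i (μ i + 1) else 0) =
      ∑ i ∈ range (k + 1), if (i = 0 ∨ ext μ i + 1 < ext μ (i - 1)) then
        cw n k i (ext μ i + 1) else 0 := by
    rw [← sum_fin k (fun i => if (i = 0 ∨ ext μ i + 1 < ext μ (i - 1)) then
        cw n k i (ext μ i + 1) else 0)]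
    apply sum_congr rfl
    intro i _
    have := st_inc_iff h i
    simp only [this, ext_fin]
  have e2 : (∑ i : Fin (k + 1), if Rem μ i then cw n k i (μ i) + 2 else 0) =
      ∑ i ∈ range (k + 1), if (0 < ext μ i ∧ (ext μ (i + 1) = 0 ∨ ext μ (i + 1) + 1 < ext μ i)) then
        cw n k i (ext μ i) + 2 else 0 := by
    rw [← sum_fin k (fun i => if (0 < ext μ i ∧ (ext μ (i + 1) = 0 ∨ ext μ (i + 1) + 1 < ext μ i))
      then cw n k i (ext μ i) + 2 else 0)]
    apply sum_congr rfl
    intro i _
    have := rem_iff h i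
    simp only [this, ext_fin]
  have e3 : tog (fun i v => cw n k i v) μ - 2 * Dn μ =
      (∑ i : Fin (k + 1), if St (inc μ i) then cw n k i (μ i + 1) else 0) -
      ∑ i : Fin (k + 1), if Rem μ i then cw n k i (μ i) + 2 else 0 := by
    unfold tog Dn
    have : ∀ i : Fin (k + 1), (if Rem μ i then cw n k i (μ i) + 2 else 0) =
        (if Rem μ i then cw n k i (μ i) else 0) + 2 * (if Rem μ i then 1 else 0) := by
      intro i; split_ifs <;> ring
    rw [sum_congr rfl (fun i _ => this i), sum_add_distrib, ← mul_sum]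
    ring
  have e4 := aux1 n k (ext μ) hg k
  rw [e1, e2, sum_range_succ (n := k) (f := fun i => if (0 < ext μ i ∧ (ext μ (i + 1) = 0 ∨
    ext μ (i + 1) + 1 < ext μ i)) then cw n k i (ext μ i) + 2 else 0), ← sub_sub, e4] at e3
  rw [io_eq]
  have e5 : tog (fun i v => cw n k i v) μ = 2 * Dn μ + (tog (fun i v => cw n k i v) μ - 2 * Dn μ) := by
    ring
  rw [e5, e3, hk]
  by_cases h1 : 0 < ext μ k
  · rw [if_pos h1, if_pos ⟨h1, Or.inl rfl⟩]
    by_cases h2 : ext μ k = 1
    · rw [if_pos ⟨k, le_rfl, h2⟩]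
      unfold cw
      rw [if_pos h2, h2]
      push_cast
      ring
    · rw [if_neg]
      · unfold cw
        rw [if_neg h2]
        ring
      · rintro ⟨i, hi, h3⟩
        rcases Nat.lt_or_eq_of_le hi with h4 | h4
        · have := hg i k h4; omega
        · rw [h4] at h3; exact h2 h3
  · rw [if_neg h1, if_neg (fun hh : 0 < ext μ k ∧ (0 = 0 ∨ 0 + 1 < ext μ k) => h1 hh.1)]
    ring

/-- second pointwise identity -/
lemma pointwise2 (k : ℕ) {μ : Fin (k + 1) → ℕ} (h : St μ) :
    tog (fun _ v => cd v) μ = 1 - 2 * io μ - Yf μ := by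
  have hg : ∀ i j, i < j → ext μ j = 0 ∨ ext μ j < ext μ i := fun i j hij => h.ext hij
  have hk : ext μ (k + 1) = 0 := ext_ge μ le_rfl
  have e1 : (∑ i : Fin (k + 1), if St (inc μ i) then cd (μ i + 1) else 0) =
      ∑ i ∈ range (k + 1), if (i = 0 ∨ ext μ i + 1 < ext μ (i - 1)) then
        cd (ext μ i + 1) else 0 := by
    rw [← sum_fin k (fun i => if (i = 0 ∨ ext μ i + 1 < ext μ (i - 1)) then
        cd (ext μ i + 1) else 0)]
    apply sum_congr rfl
    intro i _
    have := st_inc_iff h i
    simp only [this, ext_fin]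
  have e2 : (∑ i : Fin (k + 1), if Rem μ i then cd (μ i) else 0) =
      ∑ i ∈ range (k + 1), if (0 < ext μ i ∧ (ext μ (i + 1) = 0 ∨ ext μ (i + 1) + 1 < ext μ i)) then
        cd (ext μ i) else 0 := by
    rw [← sum_fin k (fun i => if (0 < ext μ i ∧ (ext μ (i + 1) = 0 ∨ ext μ (i + 1) + 1 < ext μ i))
      then cd (ext μ i) else 0)]
    apply sum_congr rfl
    intro i _
    have := rem_iff h i
    simp only [this, ext_fin]
  have e4 := aux2 (ext μ) hg k
  unfold tog
  rw [e1, e2, sum_range_succ (n := k) (f := fun i => if (0 < ext μ i ∧ (ext μ (i + 1) = 0 ∨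
    ext μ (i + 1) + 1 < ext μ i)) then cd (ext μ i) else 0), ← sub_sub, e4]
  rw [io_eq, hk]
  have hY : Yf μ = if 2 ≤ ext μ k then 1 else 0 := by
    unfold Yf
    have : (∀ i, 2 ≤ μ i) ↔ 2 ≤ ext μ k := by
      constructor
      · intro hh
        have := hh ⟨k, Nat.lt_succ_self k⟩
        rw [← ext_fin μ] at this
        exact this
      · intro hh i
        rw [← ext_fin μ]
        have hi : (i : ℕ) ≤ k := by omega
        rcases Nat.lt_or_eq_of_le hi with h4 | h4
        · have := hg i k h4; omega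
        · rw [h4]; exact hh
    simp only [this]
  rw [hY]
  by_cases h1 : 0 < ext μ k
  · rw [if_pos h1, if_pos ⟨h1, Or.inl rfl⟩]
    by_cases h2 : ext μ k = 1
    · rw [if_pos ⟨k, le_rfl, h2⟩, if_neg (by omega)]
      unfold cd
      rw [if_pos h2]
      norm_num
    · rw [if_neg, if_pos (by omega)]
      · unfold cd
        rw [if_neg h2]
        norm_num
      · rintro ⟨i, hi, h3⟩
        rcases Nat.lt_or_eq_of_le hi with h4 | h4
        · have := hg i k h4; omega
        · rw [h4] at h3; exact h2 h3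
  · rw [if_neg h1, if_neg (fun hh : 0 < ext μ k ∧ (0 = 0 ∨ 0 + 1 < ext μ k) => h1 hh.1),
      if_neg (by omega : ¬ 2 ≤ ext μ k)]

end Pool.Agent.J4.H53.Cde
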