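import Pool.Agent.J4.H53.Cde.Count

set_option autoImplicit false

namespace Pool.Agent.J4.H53.Cde

open Finset

open scoped Classical

variable {m : ℕ}

/-- the strict partitions with rows bounded by `n, n-2, ...` -/
noncomputable def J (n m : ℕ) : Finset (Fin m → ℕ) :=
  (Fintype.piFinset (fun i : Fin m => range (n - 2 * (i : ℕ) + 1))).filter St

lemma mem_J {n m : ℕ} {μ : Fin m → ℕ} : μ ∈ J n m ↔ (∀ i, μ i ≤ n - 2 * (i : ℕ)) ∧ St μ := by
  unfold J
  rw [mem_filter, Fintype.mem_piFinset]
  simp only [mem_range, Nat.lt_succ_iff]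

lemma st_dec_of_mem {μ : Fin m → ℕ} {n : ℕ} (h : μ ∈ J n m) {i : Fin m} (hr : Rem μ i) :
    dec μ i ∈ J n m := by
  rw [mem_J] at h ⊢
  refine ⟨?_, hr.2⟩
  intro j
  have := h.1 j
  by_cases hj : j = i
  · subst hj; rw [dec_self]; omega
  · rw [dec_ne _ hj]; exact this

lemma uniform_toggle (n : ℕ) (c : Fin m → ℕ → ℚ) (hc : ∀ i : Fin m, c i (n - 2 * (i : ℕ) + 1) = 0) :
    ∑ μ ∈ J n m, tog c μ = 0 := by
  unfold tog
  rw [sum_sub_distrib, sum_comm, sum_comm (s := J n m), sub_eq_zero]
  apply sum_congr rfl
  intro i _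
  rw [← sum_filter, ← sum_filter]
  have h1 : ∑ μ ∈ (J n m).filter (fun μ => St (inc μ i)), c i (μ i + 1) =
      ∑ μ ∈ (J n m).filter (fun μ => inc μ i ∈ J n m), c i (μ i + 1) := by
    symm
    apply sum_subset
    · intro μ hμ
      rw [mem_filter] at hμ ⊢
      exact ⟨hμ.1, (mem_J.1 hμ.2).2⟩
    · intro μ hμ hμ2
      rw [mem_filter] at hμ hμ2
      have h2 : ¬ inc μ i ∈ J n m := fun h => hμ2 ⟨hμ.1, h⟩
      rw [mem_J] at h2
      have h3 := mem_J.1 hμ.1
      have h4 : μ i = n - 2 * (i : ℕ) := by
        by_contra h5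
        apply h2
        refine ⟨?_, hμ.2⟩
        intro j
        have := h3.1 j
        by_cases hj : j = i
        · subst hj; rw [inc_self]; omega
        · rw [inc_ne _ hj]; exact this
      rw [h4, hc]
  rw [h1]
  apply sum_nbij' (fun μ => inc μ i) (fun ν => dec ν i)
  · intro μ hμ
    rw [mem_filter] at hμ ⊢
    exact ⟨hμ.2, rem_inc (mem_J.1 hμ.1).2 i⟩
  · intro ν hν
    rw [mem_filter] at hν ⊢
    refine ⟨st_dec_of_mem hν.1 hν.2, ?_⟩
    rw [inc_dec hν.2.1]
    exact hν.1
  · intro μ hμ
    exact dec_inc μ i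
  · intro ν hν
    rw [mem_filter] at hν
    exact inc_dec hν.2.1
  · intro μ hμ
    simp only [inc_self]

lemma J_zero (n : ℕ) : (J n 0).card = 1 := by
  rw [card_eq_one]
  refine ⟨fun i => i.elim0, ?_⟩
  ext μ
  rw [mem_J, mem_singleton]
  constructor
  · intro _; funext i; exact i.elim0
  · intro _
    exact ⟨fun i => i.elim0, fun i => i.elim0⟩

lemma J_last {n m : ℕ} (h : n ≤ 2 * m) : (J n (m + 1)).card = (J n m).card := by
  apply card_nbij' (fun μ => fun i : Fin m => μ i.castSucc) (fun ν => Fin.snoc ν 0)
  · intro μ hμ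
    rw [SetLike.mem_coe, mem_J] at hμ ⊢
    refine ⟨fun i => hμ.1 i.castSucc, fun i j hij => ?_⟩
    exact hμ.2 i.castSucc j.castSucc (by simpa using hij)
  · intro ν hν
    rw [SetLike.mem_coe, mem_J] at hν ⊢
    constructor
    · intro i
      refine Fin.lastCases ?_ (fun j => ?_) i
      · simp
      · beta_reduce
        rw [Fin.snoc_castSucc]; exact hν.1 j
    · intro i j hij
      revert hij
      refine Fin.lastCases ?_ (fun j => ?_) j
      · intro _; left; simp
      · intro hij
        have hi : (i : ℕ) < m := by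
          rw [Fin.lt_def] at hij
          simp at hij
          omega
        have hi' : i = Fin.castSucc ⟨i, hi⟩ := by ext; simp
        rw [hi']
        beta_reduce
        rw [Fin.snoc_castSucc, Fin.snoc_castSucc]
        apply hν.2
        rw [Fin.lt_def] at hij ⊢
        simpa using hij
  · intro μ hμ
    rw [SetLike.mem_coe, mem_J] at hμ
    funext i
    refine Fin.lastCases ?_ (fun j => ?_) i
    · beta_reduce
      rw [Fin.snoc_last]
      have := hμ.1 (Fin.last m)
      rw [Fin.val_last] at this
      omega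
    · beta_reduce
      rw [Fin.snoc_castSucc]
  · intro ν hν
    funext i
    simp

lemma J_noone {n m : ℕ} (h : 2 * m < n + 1) :
    ((J (n + 1) (m + 1)).filter (fun μ => ¬ ∃ i, μ i = 1)).card = (J n (m + 1)).card := by
  apply card_nbij' (fun μ => fun i => μ i - 1) (fun ν => fun i => if ν i = 0 then 0 else ν i + 1)
  · intro μ hμ
    rw [SetLike.mem_coe, mem_filter, mem_J] at hμ
    rw [SetLike.mem_coe, mem_J]
    constructor
    · intro i
      have := hμ.1.1 i
      simp only
      omega
    · intro i j hij
      have h1 := hμ.1.2 i j hij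
      simp only
      omega
  · intro ν hν
    rw [SetLike.mem_coe, mem_J] at hν
    rw [SetLike.mem_coe, mem_filter, mem_J]
    refine ⟨⟨?_, ?_⟩, ?_⟩
    · intro i
      have := hν.1 i
      simp only
      split_ifs
      · omega
      · omega
    · intro i j hij
      have h1 := hν.2 i j hij
      simp only
      split_ifs <;> omega
    · rintro ⟨i, hi⟩
      simp only at hi
      split_ifs at hi
      omega
  · intro μ hμ
    rw [SetLike.mem_coe, mem_filter, mem_J] at hμ
    funext i
    have h1 : μ i ≠ 1 := fun h => hμ.2 ⟨i, h⟩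
    simp only
    split_ifs <;> omega
  · intro ν hν
    funext i
    simp only
    split_ifs with h1
    · omega
    · omega

lemma J_one {n m : ℕ} (h : 2 * m < n + 1) :
    ((J (n + 1) (m + 1)).filter (fun μ => ∃ i, μ i = 1)).card = (J n m).card := by
  apply card_nbij' (fun μ => fun i : Fin m => μ i.castSucc - 1)
    (fun ν => fun i : Fin (m + 1) => if 0 < ext ν i then ext ν i + 1 else
      if ((i : ℕ) = 0 ∨ 0 < ext ν (i - 1)) then 1 else 0)
  · intro μ hμ
    rw [SetLike.mem_coe, mem_filter, mem_J] at hμ
    rw [SetLike.mem_coe, mem_J]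
    constructor
    · intro i
      have := hμ.1.1 i.castSucc
      simp only [Fin.val_castSucc] at this ⊢
      omega
    · intro i j hij
      have h1 := hμ.1.2 i.castSucc j.castSucc (by simpa using hij)
      simp only
      omega
  · intro ν hν
    rw [SetLike.mem_coe, mem_J] at hν
    rw [SetLike.mem_coe, mem_filter, mem_J]
    have hext : ∀ i, ext ν i ≤ n - 2 * i := by
      intro i
      unfold ext
      split_ifs with hi
      · exact hν.1 ⟨i, hi⟩
      · omega
    refine ⟨⟨?_, ?_⟩, ?_⟩
    · intro i
      have := hext i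
      have hi := i.2
      simp only
      split_ifs <;> omega
    · intro i j hij
      rw [Fin.lt_def] at hij
      have h1 := hν.2.ext hij
      simp only
      by_cases hj0 : 0 < ext ν j
      · rw [if_pos hj0, if_pos (by omega)]
        omega
      · rw [if_neg hj0]
        by_cases hj1 : (j : ℕ) = 0 ∨ 0 < ext ν (j - 1)
        · rw [if_pos hj1]
          right
          have h2 : 0 < ext ν i := by
            rcases hj1 with hj1 | hj1
            · omega
            · rcases Nat.lt_or_eq_of_le (show (i : ℕ) ≤ j - 1 by omega) with h3 | h3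
              · have := hν.2.ext h3
                omega
              · rw [h3]; exact hj1
          rw [if_pos h2]
          omega
        · rw [if_neg hj1]; left; rfl
    · -- first zero
      have hex : ∃ p, ext ν p = 0 := ⟨m, ext_ge ν le_rfl⟩
      have h1 := Nat.find_spec hex
      have h2 : Nat.find hex ≤ m := Nat.find_min' hex (ext_ge ν le_rfl)
      refine ⟨⟨Nat.find hex, by omega⟩, ?_⟩
      simp only
      rw [if_neg (by omega), if_pos]
      by_cases h3 : Nat.find hex = 0
      · left; exact h3
      · right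
        have := Nat.find_min hex (show Nat.find hex - 1 < Nat.find hex by omega)
        omega
  · intro μ hμ
    rw [SetLike.mem_coe, mem_filter, mem_J] at hμ
    obtain ⟨⟨hb, hs⟩, p, hp⟩ := hμ
    funext i
    have hE : ∀ l, l ≤ m → ext (fun i : Fin m => μ i.castSucc - 1) l = ext μ l - 1 := by
      intro l hl
      by_cases hi2 : l < m
      · unfold ext
        rw [dif_pos hi2, dif_pos (by omega)]
        rfl
      · have hlm : l = m := by omega
        rw [ext_ge _ (by omega : m ≤ l)]
        by_cases hpm : (p : ℕ) = l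
        · rw [← hpm, ext_fin, hp]
        · have h2 := hs.ext (show (p : ℕ) < l by omega)
          rw [ext_fin μ p, hp] at h2
          omega
    simp only
    rw [hE i (by omega), hE ((i : ℕ) - 1) (by omega), ext_fin]
    rcases lt_trichotomy (i : ℕ) p with h1 | h1 | h1
    · have h2 := hs.ext h1
      rw [ext_fin, ext_fin, hp] at h2
      rw [if_pos (by omega)]
      omega
    · have h2 : i = p := by ext; exact h1
      subst h2
      rw [if_neg (by omega), if_pos]
      · exact hp.symm
      · by_cases h3 : (i : ℕ) = 0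
        · left; exact h3
        · right
          have h4 := hs.ext (show (i : ℕ) - 1 < i by omega)
          rw [ext_fin, hp] at h4
          omega
    · have h2 := hs.ext h1
      rw [ext_fin, ext_fin, hp] at h2
      have h3 : μ i = 0 := by omega
      rw [if_neg (by omega), if_neg, h3]
      intro h4
      rcases h4 with h4 | h4
      · omega
      · rcases Nat.lt_or_eq_of_le (show (p : ℕ) ≤ i - 1 by omega) with h5 | h5
        · have := hs.ext h5
          rw [ext_fin μ p, hp] at this
          omega
        · rw [← h5, ext_fin, hp] at h4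
          omega
  · intro ν hν
    rw [SetLike.mem_coe, mem_J] at hν
    funext i
    simp only [Fin.val_castSucc]
    rw [ext_fin]
    split_ifs <;> omega

lemma J_split {n m : ℕ} (h : 2 * m < n + 1) :
    (J (n + 1) (m + 1)).card = (J n m).card + (J n (m + 1)).card := by
  rw [← J_one h, ← J_noone h]
  exact (card_filter_add_card_filter_not _).symm

lemma J_card (n : ℕ) : ∀ m, 2 * m ≤ n + 2 → (J n m).card = (n + 1).choose m := by
  induction n with
  | zero =>
    intro m hm
    rcases m with _ | m
    · rw [J_zero]; simp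
    · have : m = 0 := by omega
      subst this
      rw [J_last (by omega), J_zero]
      simp
  | succ n ih =>
    intro m
    induction m with
    | zero => intro _; rw [J_zero]; simp
    | succ m ihm =>
      intro hm
      by_cases h : 2 * m < n + 1
      · rw [J_split h, ih m (by omega), ih (m + 1) (by omega)]
        exact (Nat.choose_succ_succ (n + 1) m).symm
      · rw [J_last (by omega), ihm (by omega)]
        have : n + 1 + 1 = m + (m + 1) := by omega
        rw [this]
        exact (Nat.choose_symm_add).symm ▸ rfl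

lemma uniform_main (n k : ℕ) (h : 2 * k < n) :
    ∑ μ ∈ J n (k + 1), Dn μ = (J n (k + 1)).card * ((k + 1) * (n - k) / (n + 1)) := by
  have u1 := uniform_toggle n (m := k + 1) (fun i v => cw n k i v) (fun i => cw_boundary n k h i)
  rw [sum_congr rfl (fun μ hμ => pointwise n k (mem_J.1 hμ).2)] at u1
  rw [sum_sub_distrib, sum_sub_distrib, ← mul_sum, ← mul_sum, sum_const, nsmul_eq_mul] at u1
  obtain ⟨n', rfl⟩ : ∃ n', n = n' + 1 := ⟨n - 1, by omega⟩
  have h1 : ∑ μ ∈ J (n' + 1) (k + 1), io μ = ((J n' k).card : ℚ) := by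
    unfold io
    rw [← sum_filter, sum_const, nsmul_eq_mul, mul_one, J_one h]
  rw [h1, J_card n' k (by omega)] at u1
  have h2 : (J (n' + 1) (k + 1)).card = (n' + 1 + 1).choose (k + 1) := J_card _ _ (by omega)
  rw [h2] at u1 ⊢
  have h3 := Nat.add_one_mul_choose_eq (n' + 1) k
  have h4 : ((n' + 1 : ℚ) + 1) * ((n' + 1).choose k : ℚ) =
      ((n' + 1 + 1).choose (k + 1) : ℚ) * (k + 1) := by
    have := congrArg (fun x : ℕ => (x : ℚ)) h3
    push_cast at this
    exact this
  have h5 : (n' : ℚ) + 1 + 1 ≠ 0 := by positivity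
  have h6 : ((n' + 1).choose k : ℚ) = ((n' + 1 + 1).choose (k + 1) : ℚ) * (k + 1) / (n' + 1 + 1) := by
    rw [← h4]; field_simp
  rw [h6] at u1
  push_cast at u1 ⊢
  have h7 : ∑ i ∈ J (n' + 1) (k + 1), Dn i = (1 / 2) * (((n' + 1 + 1).choose (k + 1) : ℚ) * (k + 1) +
      ((n' : ℚ) + 1 - 2 * k - 1) * (((n' + 1 + 1).choose (k + 1) : ℚ) * (k + 1) / (n' + 1 + 1))) := by
    linear_combination (1 / 2) * u1
  rw [h7]
  field_simp
  ring

end Pool.Agent.J4.H53.Cde
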